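import Mathlib
import Pool.Agent.Helper529.HJ.K13

namespace Pool.Agent.Results.MP_ae5711_al.AmenableHJI

/-- `G` is amenable: it carries a finitely additive, left-invariant probability measure defined on
all of its subsets. -/
def Amenable (G : Type) [Group G] : Prop :=
  ∃ μ : Set G → ℝ, (∀ A, 0 ≤ μ A) ∧ μ Set.univ = 1 ∧
    (∀ A B : Set G, Disjoint A B → μ (A ∪ B) = μ A + μ B) ∧
    ∀ (g : G) (A : Set G), μ ((fun x => g * x) '' A) = μ A

/-- `G` is just-infinite: infinite, and every nontrivial normal subgroup has finite index. -/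
def JustInfinite (G : Type) [Group G] : Prop :=
  Infinite G ∧ ∀ N : Subgroup G, N.Normal → N ≠ ⊥ → N.FiniteIndex

/-- `G` is residually finite. -/
def ResiduallyFinite (G : Type) [Group G] : Prop :=
  ∀ g : G, g ≠ 1 → ∃ N : Subgroup G, N.Normal ∧ N.FiniteIndex ∧ g ∉ N

/-- `G` is hereditarily just-infinite: residually finite, and every subgroup of finite index is
just-infinite. -/
def HereditarilyJustInfinite (G : Type) [Group G] : Prop :=
  ResiduallyFinite G ∧ ∀ H : Subgroup G, H.FiniteIndex → JustInfinite H

/-- The class of elementary amenable groups: the smallest class of groups containing the finite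
groups and the abelian groups and closed under subgroups, quotients, extensions and directed
unions. -/
inductive ElementaryAmenable : (G : Type) → [Group G] → Prop
  | finite (G : Type) [Group G] (h : Finite G) : ElementaryAmenable G
  | abelian (G : Type) [Group G] (h : ∀ a b : G, a * b = b * a) : ElementaryAmenable G
  | subgroup (G H : Type) [Group G] [Group H] (f : H →* G) (hf : Function.Injective f)
      (h : ElementaryAmenable G) : ElementaryAmenable H
  | quotient (G H : Type) [Group G] [Group H] (f : G →* H) (hf : Function.Surjective f)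
      (h : ElementaryAmenable G) : ElementaryAmenable H
  | extension (G H : Type) [Group G] [Group H] (f : G →* H) (hf : Function.Surjective f)
      (h1 : ElementaryAmenable f.ker) (h2 : ElementaryAmenable H) : ElementaryAmenable G
  | directedUnion (G : Type) [Group G] (ι : Type) [Nonempty ι] (U : ι → Subgroup G)
      (hdir : Directed (· ≤ ·) U) (hU : ∀ g : G, ∃ i, g ∈ U i)
      (h : ∀ i, ElementaryAmenable (U i)) : ElementaryAmenable G


namespace NEA

variable {G : Type} [Group G]

theorem key (hfg : Group.FG G)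
    (hji : ∀ H : Subgroup G, H.FiniteIndex → JustInfinite H)
    (hna : ∀ H : Subgroup G, H.FiniteIndex → ∃ a b : H, a * b ≠ b * a)
    (K : Type) [Group K] (h : ElementaryAmenable K) :
    ∀ D : Subgroup G, D.FiniteIndex → ∀ (L : Subgroup K) (φ : L →* D),
      ¬ Function.Surjective φ := by
  induction h with
  | finite K hK =>
    intro D hD L φ hφ
    have : Finite D := Finite.of_surjective φ hφ
    exact (hji D hD).1.not_finite this
  | abelian K hK =>
    intro D hD L φ hφ
    obtain ⟨a, b, hab⟩ := hna D hD
    obtain ⟨x, rfl⟩ := hφ a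
    obtain ⟨y, rfl⟩ := hφ b
    apply hab
    rw [← map_mul, ← map_mul]
    congr 1
    exact Subtype.ext (hK x y)
  | subgroup G' H f hf _ ih =>
    intro D hD L φ hφ
    let e : L ≃* L.map f := L.equivMapOfInjective f hf
    exact ih D hD (L.map f) (φ.comp e.symm.toMonoidHom) (hφ.comp e.symm.surjective)
  | quotient G' H f hf _ ih =>
    intro D hD L φ hφ
    exact ih D hD (L.comap f) (φ.comp (f.subgroupComap L))
      (hφ.comp (f.subgroupComap_surjective_of_surjective L hf))
  | extension K Q f hf _ _ ih1 ih2 =>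
    intro D hD L φ hφ
    let N0 : Subgroup D := (f.ker.subgroupOf L).map φ
    have hN0 : N0.Normal := Subgroup.Normal.map inferInstance φ hφ
    by_cases hbot : N0 = ⊥
    · let g : L →* L.map f := f.subgroupMap L
      have hg : Function.Surjective g := f.subgroupMap_surjective L
      have hker : g.ker ≤ φ.ker := by
        intro x hx
        rw [MonoidHom.mem_ker] at hx ⊢
        have : f x = 1 := congrArg Subtype.val hx
        have h1 : φ x ∈ N0 := ⟨x, by
          show (x : K) ∈ f.ker
          exact this, rfl⟩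
        rw [hbot] at h1
        exact h1
      refine ih2 D hD (L.map f) (g.liftOfSurjective hg ⟨φ, hker⟩) ?_
      intro d
      obtain ⟨x, rfl⟩ := hφ d
      exact ⟨g x, MonoidHom.liftOfRightInverse_comp_apply _ _ _ _ _⟩
    · have hfi : N0.FiniteIndex := (hji D hD).2 N0 hN0 hbot
      have hfi' : (N0.map D.subtype).FiniteIndex := by
        constructor
        rw [Subgroup.index_map_subtype]
        exact mul_ne_zero hfi.index_ne_zero hD.index_ne_zero
      let ψ : (L.subgroupOf f.ker) →* (N0.map D.subtype) :=
        { toFun := fun x => ⟨(φ ⟨(x : f.ker), x.2⟩ : G), ⟨φ ⟨(x : f.ker), x.2⟩,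
            ⟨⟨(x : f.ker), x.2⟩, (x : f.ker).2, rfl⟩, rfl⟩⟩
          map_one' := by
            apply Subtype.ext
            show ((φ 1 : D) : G) = 1
            rw [map_one]; rfl
          map_mul' := by
            intro x y
            apply Subtype.ext
            show ((φ (⟨(x : f.ker), x.2⟩ * ⟨(y : f.ker), y.2⟩) : D) : G) = _
            rw [map_mul]; rfl }
      refine ih1 (N0.map D.subtype) hfi' (L.subgroupOf f.ker) ψ ?_
      rintro ⟨_, ⟨_, ⟨x, hx, rfl⟩, rfl⟩⟩
      exact ⟨⟨⟨(x : K), hx⟩, x.2⟩, rfl⟩
  | directedUnion K ι U hdir hU _ ih =>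
    intro D hD L φ hφ
    classical
    have hDfg : Group.FG D := Subgroup.fg_of_index_ne_zero D
    have hDfg' : (⊤ : Subgroup D).FG := hDfg.out
    obtain ⟨S, hS⟩ := hDfg'
    choose lift hlift using hφ
    have hi : ∃ i, ∀ d ∈ S, (lift d : K) ∈ U i := by
      choose idx hidx using hU
      obtain ⟨i, hi⟩ := hdir.finset_le (S.image (fun d => idx (lift d : K)))
      refine ⟨i, fun d hd => ?_⟩
      exact hi _ (Finset.mem_image_of_mem _ hd) (hidx _)
    obtain ⟨i, hi⟩ := hi
    let ψ : (L.subgroupOf (U i)) →* D :=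
      { toFun := fun x => φ ⟨(x : U i), x.2⟩
        map_one' := map_one φ
        map_mul' := fun x y => map_mul φ ⟨(x : U i), x.2⟩ ⟨(y : U i), y.2⟩ }
    refine ih i D hD (L.subgroupOf (U i)) ψ ?_
    rw [← MonoidHom.range_eq_top, eq_top_iff, ← hS, Subgroup.closure_le]
    intro d hd
    refine ⟨⟨⟨(lift d : K), hi d hd⟩, (lift d).2⟩, hlift d⟩

end NEA

theorem not_ea {G : Type} [Group G] (hfg : Group.FG G)
    (hji : ∀ H : Subgroup G, H.FiniteIndex → JustInfinite H)
    (hna : ∀ H : Subgroup G, H.FiniteIndex → ∃ a b : H, a * b ≠ b * a) :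
    ¬ ElementaryAmenable G := by
  intro h
  refine NEA.key hfg hji hna G h ⊤ inferInstance ⊤ (MonoidHom.id _) ?_
  exact Function.surjective_id


/-- There is a finitely generated amenable hereditarily just-infinite group that is not elementary
amenable. -/
theorem result : ∃ (G : Type) (_ : Group G), Group.FG G ∧ Amenable G ∧
    HereditarilyJustInfinite G ∧ ¬ ElementaryAmenable G := by
  obtain ⟨ν, hν⟩ := HJI.exists_nu
  have hD : ∀ M, (HJI.Dn ν M).Ok := fun M => HJI.Dh_ok (ν M)
  have hji : ∀ H : Subgroup (HJI.GG HJI.L0 (HJI.Dn ν)), H.FiniteIndex → JustInfinite H := by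
    intro H hH
    refine ⟨?_, HJI.hji_main hD H hH⟩
    have hinf := HJI.GG_infinite hD
    by_contra hfin
    rw [not_infinite_iff_finite] at hfin
    have h1 : Nat.card H ≠ 0 := Nat.card_pos.ne'
    have h2 := H.card_mul_index
    have h3 : Nat.card (HJI.GG HJI.L0 (HJI.Dn ν)) ≠ 0 := by
      rw [← h2]
      exact Nat.mul_ne_zero h1 hH.index_ne_zero
    exact (not_finite_iff_infinite.mpr hinf) (Nat.finite_of_card_ne_zero h3)
  refine ⟨HJI.GG HJI.L0 (HJI.Dn ν), inferInstance, HJI.GG_fg, ?_, ⟨HJI.GG_rf hD, hji⟩, ?_⟩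
  · exact HJI.Fol.mean_of_fol (HJI.fol_GG ν hν)
  · exact not_ea HJI.GG_fg hji (HJI.GG_nonab hD)

end Pool.Agent.Results.MP_ae5711_al.AmenableHJI
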